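import Pool.Agent.Helper17.FSA.Mem

/-! FIRST, row [A]: the entropies of the cells of a zoom with linear exponents. -/

set_option autoImplicit false

namespace Pool.Agent.Helper17.FSA

open Finset Filter Topology Matrix Pool.Agent.Helper69.RK Pool.Agent.Helper31.EC Pool.Agent.Helper31.EC.Sp
open Pool.Agent.Helper40.EL Pool.Agent.Helper89.LX Pool.Agent.Helper84.MT
open Pool.Agent.Helper49.MD Pool.Agent.Helper36.AM
open Pool.Agent.Helper29.MX
open Pool.Agent.Helper15.FST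
open Pool.Agent.Helper94.SEL (tot)

noncomputable section

variable {S : Sp} {M : ℕ}

/-- DEFICIENCY AT ALL LEVELS: linear total exponent `w0 b`, type-labels of the window `b` with information at most
`q w0 b` -/
theorem dfc_one (hLEV : ROW_LEV) (hTRV : ROW_TRV) {κ r : ℕ} (hκ : 1 ≤ κ) (hst : ∀ m, m < M + 1 → STu m)
    {t : MSys S (M + 1) (lin κ) (Fin r)} {q w0 η : ℝ} (hq : 0 ≤ q) (hq1 : q < 1) (hw0 : 1 ≤ w0) (hη : 0 < η)
    (hs : ∀ b : ℝ, 0 ≤ b → w0 * b < 1 - η → |tot t (rbot S) b - w0 * b| ≤ η)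
    (hu : ∀ (T : Sp) (p : Pj T S) (A : ∀ k, (T.F k).Ω → Prop) (hA : 0 < ul (T.pr A)) (b : ℝ), 0 ≤ b →
      w0 * b < 1 - η → tot (t.im p A hA) (rbot _) b = tot t (rbot S) b)
    (hI : ∀ b : ℝ, 0 ≤ b → b ≤ 1 → ∀ e : ℝ, 0 < e → e ≤ 1 → ∀ l : Lab S, TLb t b l →
      H (t.Q.dg e) - H (up1 l (t.Q.dg e)) ≤ q * w0 * b + η)
    {b : ℝ} (hb : 0 ≤ b) (hb1 : b ≤ 1) : H (t.Q.dg b) ≤ (M + q) * b + 5 * η := by
  rcases le_or_gt b (2 * η) with h1 | h1
  · have h2 := VV.H_dg_le t.Q hb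
    push_cast at h2
    have h3 : (1 - q) * b ≤ 1 * b := mul_le_mul_of_nonneg_right (by linarith) hb
    have e1 : ((M : ℝ) + 1) * b = (M + q) * b + (1 - q) * b := by ring
    linarith
  · have hw : 0 < w0 := by linarith
    have hb0 : 0 < b := by linarith
    set b' : ℝ := (b - 2 * η) / w0 with hb'
    have h2 : w0 * b' = b - 2 * η := by
      rw [hb']
      field_simp
    have h3 : 0 ≤ b' := div_nonneg (by linarith) hw.le
    have h4 : b' ≤ b := by
      have h5 : b' ≤ w0 * b' := le_mul_of_one_le_left h3 hw0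
      linarith
    have h5 : w0 * b' < 1 - η := by linarith
    have h6 := abs_le.1 (hs b' h3 h5)
    have h7 : UL t 1 b' = tot t (rbot S) b' := (hLEV S (M + 1) κ r t).1 b' h3 (h4.trans hb1)
    -- the hull does not change between the levels `b` and `1`
    have h8 : UL t 1 b' ≤ UL t b b' := by
      rcases hb1.eq_or_lt with h9 | h9
      · rw [h9]
      · refine hTRV (M + 1) κ r hκ hst S t b b' hb0 h9 h3 h4 fun T p A hA => ?_
        have h10 : UL (t.im p A hA) 1 b' = tot (t.im p A hA) (rbot _) b' :=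
          (hLEV _ (M + 1) κ r (t.im p A hA)).1 b' h3 (h4.trans hb1)
        rw [h10, hu T p A hA b' h3 h5]
        linarith
    have h9 : HL t b b' ≤ (M + 1 : ℕ) * b - UL t b b' := (hLEV S (M + 1) κ r t).2.2.2.1 b b' hb0 hb1 h3 h4
    obtain ⟨x, ⟨l, hl, rfl⟩, hx⟩ := exists_lt_of_csInf_lt (s := {v | ∃ l : Lab S, TLb t b' l ∧ v = H (up1 l (t.Q.dg b))})
      ⟨_, _, Pool.Agent.Helper89.NUM.TLb_tr t b', rfl⟩ (show HL t b b' < HL t b b' + η by linarith)
    have h10 := hI b' h3 (h4.trans hb1) b hb0 hb1 l hl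
    have h11 : q * w0 * b' = q * (b - 2 * η) := by rw [mul_assoc, h2]
    rw [h7] at h8
    push_cast at h9
    have h12 : (1 - q) * (2 * η) ≤ 1 * (2 * η) := mul_le_mul_of_nonneg_right (by linarith) (by linarith)
    have h13 : 0 ≤ q * η := mul_nonneg hq hη.le
    nlinarith

end

end Pool.Agent.Helper17.FSA
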