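import Pool.Agent.Helper89.NUM.Row
import Pool.Agent.Helper80.SUB.Sim
import Pool.Agent.Helper80.FST.Row4
import Pool.Agent.Helper71.VIS.Num
import Pool.Agent.Helper52.GF.Mxc

/-! FIRST, row [A]: literal labels, prefixes, transport of statements along equalities of systems. -/

set_option autoImplicit false

namespace Pool.Agent.Helper17.FSA

open Finset Filter Topology Matrix Pool.Agent.Helper69.RK Pool.Agent.Helper31.EC Pool.Agent.Helper31.EC.Sp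
open Pool.Agent.Helper40.EL Pool.Agent.Helper89.LX Pool.Agent.Helper84.MT
open Pool.Agent.Helper49.MD Pool.Agent.Helper36.AM
open Pool.Agent.Helper29.MX
open Pool.Agent.Helper15.FST
open Pool.Agent.Helper80.SUB (PLe_im')
open Pool.Agent.Helper89.NUM (HL_le)

noncomputable section

variable {S T : Sp} {N M : ℕ} {E E' : ℕ → ℕ} {ι : Type}

/-- literal type-labels -/
theorem tlb_ofZ {s : MSys S N E ι} {c : ℝ} {W : Rsl S} :
    TLb s c (Lab.ofZ W) ↔ ∀ i, PLe (fun k => fc (W k)) ((s.lf i).win c) :=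
  Lab.ofZ_DMf W (A := fun i => (s.lf i).win c)

theorem tlb_inf {s : MSys S N E ι} {c : ℝ} {W W' : Rsl S} (h : TLb s c (Lab.ofZ W)) (h' : TLb s c (Lab.ofZ W')) :
    TLb s c (Lab.ofZ fun k => W k ⊓ W' k) := by
  rw [tlb_ofZ] at h h' ⊢
  intro i
  have e : (fun k => (fc (W k ⊓ W' k) : FL (S.F k))) = fun k => fc (W k) ⊔ fc (W' k) := funext fun k => fc_inf _ _
  rw [e]
  exact PLe.sup_le (h i) (h' i)

/-- literal type-labels on events of extensions -/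
theorem tlb_im {s : MSys S N E ι} {c : ℝ} {W : Rsl S} (h : TLb s c (Lab.ofZ W)) (p : Pj T S)
    (A : ∀ k, (T.F k).Ω → Prop) (hA : 0 < ul (T.pr A)) : TLb (s.im p A hA) c (Lab.ofZ (S := Sp.im p A) W) := by
  rw [tlb_ofZ] at h ⊢
  intro i
  exact PLe_im' p A hA (h i)

/-- literal type-labels of the system are type-labels of the zoom -/
theorem tlb_zoom {κ : ℕ} {s : MSys S N E ι} {c a w U : ℝ} (Z : Zst s κ c a w U) {b : ℝ} (hb : 0 ≤ b) (hb1 : b ≤ 1)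
    {V : Rsl S} (h : TLb s (c + w * b) (Lab.ofZ V)) :
    TLb Z.t b (Lab.ofZ (S := (Lab.ofZ Z.W).ovr w Z.hu) V) := by
  rw [tlb_ofZ] at h ⊢
  intro i
  exact ((Lab.ofZ Z.W).PLe_up w Z.hu (h i)).trans (Z.win b i hb hb1).2

/-- finer literal labels -/
theorem H_ofZ_mono {V V' : Rsl S} (hV : ∀ k, V' k ≤ V k) (x : S.L) :
    H (up1 (Lab.ofZ V') x) ≤ H (up1 (Lab.ofZ V) x) := by
  have h1 := Pool.Agent.Helper80.FST.h_ofZ_mono hV x ⊥
  have e : ∀ l : Lab S, up1 l (⊥ : S.L) = ⊥ := fun l => l.upL_bot 1 one_pos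
  rw [e, e, h_bot, h_bot] at h1
  exact h1

/-- literal maximal labels -/
theorem exists_kap_lit [Finite ι] (s : MSys S N E ι) (c : ℝ) : ∃ V : Rsl S, s.IsKap c (Lab.ofZ V) := by
  obtain ⟨Z, x, -, -, -, h1, -, h2⟩ := Pool.Agent.Helper49.KL.exists_kap_litK (gaq s.Q 0) (s.cnd c) (i₀ := none)
    (pcd_Bd s.Q) (rbot S)
  exact ⟨Z, h1, fun l' hl' => h2 l' hl' (kz_bot l')⟩

/-- prefix volumes at the level 1 -/
theorem volP_trn1 (hLEV : ROW_LEV) {g r : ℕ} (s : MSys S N (lin g) (Fin r)) {c : ℝ} (h0 : 0 ≤ c) (h1 : c ≤ 1) {j : ℕ}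
    (hj : j ≤ N) : volP (s.trn 1 one_pos le_rfl) (rbot (S.chg S.tr 1 one_pos)) (c / 1) hj = volP s (rbot S) c hj := by
  rw [Pool.Agent.Helper52.GF.volP_eq, Pool.Agent.Helper52.GF.volP_eq]
  have h2 := (hLEV S j g r (Pool.Agent.Helper18.PRM.scrd (Fin.castLE hj) s)).1 c h0 h1
  unfold UL at h2
  rw [dif_pos ⟨one_pos, le_rfl⟩, one_mul] at h2
  have h3 : volKO ((Pool.Agent.Helper18.PRM.scrd (Fin.castLE hj) s).trn 1 one_pos le_rfl)
      (rbot (S.chg S.tr 1 one_pos)) (c / 1) = volKO (Pool.Agent.Helper18.PRM.scrd (Fin.castLE hj) s) (rbot S) c := by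
    linarith
  exact h3

/-- transport of statements about systems and partitions along an equality of systems -/
theorem sig_tr {α : Type} (P : ∀ X : Sp, MSys X N E ι → (α → Rsl X) → Prop) (Ω : ℕ → Type)
    (W : α → ∀ k, Setoid (Ω k)) {X Y : Sp} {t : MSys X N E ι} {t' : MSys Y N E ι}
    (hX : ∀ k, (X.F k).Ω = Ω k) (hY : ∀ k, (Y.F k).Ω = Ω k)
    (h : (⟨X, t⟩ : Σ S : Sp, MSys S N E ι) = ⟨Y, t'⟩)
    (hP : P X t fun a k => cast (congrArg Setoid (hX k).symm) (W a k)) :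
    P Y t' fun a k => cast (congrArg Setoid (hY k).symm) (W a k) := by
  cases h
  exact hP

/-- transport of statements about systems -/
theorem sig_tr0 (P : ∀ X : Sp, MSys X N E ι → Prop) {X Y : Sp} {t : MSys X N E ι} {t' : MSys Y N E ι}
    (h : (⟨X, t⟩ : Σ S : Sp, MSys S N E ι) = ⟨Y, t'⟩) (hP : P X t) : P Y t' := by
  cases h
  exact hP

/-! ### one zoom -/

/-- the information of the type-labels of a zoom about its cells -/
theorem inf_zoom (hN3 : ROW_N3) (hN4 : ROW_N4) {g r κ : ℕ} {s : MSys S N (lin g) (Fin r)} {c a w U : ℝ}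
    (Z : Zst s κ c a w U) {b : ℝ} (hb : 0 ≤ b) (hb1 : b ≤ 1) {l : Lab ((Lab.ofZ Z.W).ovr w Z.hu)} (hl : TLb Z.t b l)
    {e : ℝ} (he : 0 < e) (he1 : e ≤ 1) :
    w * (H (Z.t.Q.dg e) - H (up1 l (Z.t.Q.dg e))) ≤ H (up1 (Lab.ofZ Z.W) (s.Q.dg 1)) - HL s 1 (c + w * b) := by
  have h1 := (hN4 S N g r κ s c a w U Z e he he1).1 l
  have h2 := (hN3 S N g r κ s c a w U Z b hb hb1 l hl).1
  have h3 := HL_le (r := 1) h2
  linarith

/-- the information of a literal label given another one -/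
theorem inf_zoom2 (hN3 : ROW_N3) (hN4 : ROW_N4) (hCLZ : ROW_CLZ) {g r κ : ℕ} {s : MSys S N (lin g) (Fin r)}
    {c a w U : ℝ} (Z : Zst s κ c a w U) {b : ℝ} (hb : 0 ≤ b) (hb1 : b ≤ 1) {V V' V0 : Rsl S} (hV : ∀ k, V' k ≤ V k)
    (hV0 : ∀ k, V k ≤ V0 k) (hl : TLb Z.t b (Lab.ofZ (S := (Lab.ofZ Z.W).ovr w Z.hu) V')) :
    w * (H (up1 (Lab.ofZ (S := (Lab.ofZ Z.W).ovr w Z.hu) V) (Z.t.Q.dg 1)) -
      H (up1 (Lab.ofZ (S := (Lab.ofZ Z.W).ovr w Z.hu) V') (Z.t.Q.dg 1))) ≤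
        H (up1 (Lab.ofZ V0) (s.Q.dg 1)) - HL s 1 (c + w * b) := by
  have h1 := (hN4 S N g r κ s c a w U Z 1 one_pos le_rfl).2 V V' hV
  have h2 := (hN3 S N g r κ s c a w U Z b hb hb1 _ hl).1
  have h3 := HL_le (r := 1) h2
  have h4 := (hCLZ S N g r κ s c a w U Z V 1 0).1
  have h5 : H (up1 (Lab.ofZ fun k => Z.W k ⊓ V k) (s.Q.dg 1)) ≤ H (up1 (Lab.ofZ V0) (s.Q.dg 1)) :=
    H_ofZ_mono (fun k => inf_le_right.trans (hV0 k)) _
  rw [h4] at h1
  linarith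

end

end Pool.Agent.Helper17.FSA
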