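import Mathlib

/-! FIRST, row [A], real analysis: at a point of positive speed the numbers are linear at small distances. -/

set_option autoImplicit false

namespace Pool.Agent.Helper17.FSA

open Filter Topology Set

/-- limits of quotients give linear approximations at small distances -/
theorem lin_approx {f g : ℝ → ℝ} {p q : ℝ} (hp : 0 < p)
    (tp : Tendsto (fun x => x / f x) (𝓝[>] 0) (𝓝 p)) (tq : Tendsto (fun x => g x / f x) (𝓝[>] 0) (𝓝 q)) {η : ℝ}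
    (hη : 0 < η) : ∃ δ : ℝ, 0 < δ ∧ ∀ x : ℝ, 0 < x → x ≤ δ → |f x - p⁻¹ * x| ≤ η * x ∧
      |g x - q * p⁻¹ * x| ≤ η * x := by
  have h1 : Tendsto (fun x => f x / x) (𝓝[>] 0) (𝓝 p⁻¹) := by
    refine (tp.inv₀ hp.ne').congr fun x => ?_
    rw [inv_div]
  have h3 : Tendsto (fun x => g x / x) (𝓝[>] 0) (𝓝 (q * p⁻¹)) := by
    refine (tq.mul h1).congr' ?_
    filter_upwards [h1.eventually_ne (inv_ne_zero hp.ne'), self_mem_nhdsWithin] with x h5 h6
    have h7 : f x ≠ 0 := fun h8 => h5 (by rw [h8, zero_div])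
    have h9 : x ≠ 0 := ne_of_gt h6
    field_simp
  have h4 := (Metric.tendsto_nhds.1 h1 η hη).and (Metric.tendsto_nhds.1 h3 η hη)
  obtain ⟨δ, hδ, h5⟩ := mem_nhdsGT_iff_exists_Ioo_subset.1 h4
  have hδ0 : (0 : ℝ) < δ := hδ
  refine ⟨δ / 2, half_pos hδ0, fun x hx hx2 => ?_⟩
  obtain ⟨h6, h7⟩ := h5 ⟨hx, by linarith⟩
  rw [Real.dist_eq] at h6 h7
  have key : ∀ y z : ℝ, |y / x - z| < η → |y - z * x| ≤ η * x := by
    intro y z h8
    have e1 : y - z * x = (y / x - z) * x := by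
      field_simp
    rw [e1, abs_mul, abs_of_pos hx]
    exact mul_le_mul_of_nonneg_right h8.le hx.le
  exact ⟨key _ _ h6, key _ _ h7⟩

/-- the same at the distances `w b`, `0 ≤ b ≤ 1` -/
theorem lin_approx' {f g : ℝ → ℝ} {p q : ℝ} (hp : 0 < p) (hf : f 0 = 0) (hg : g 0 = 0)
    (tp : Tendsto (fun x => x / f x) (𝓝[>] 0) (𝓝 p)) (tq : Tendsto (fun x => g x / f x) (𝓝[>] 0) (𝓝 q)) {η e : ℝ}
    (hη : 0 < η) (he : 0 < e) : ∃ w : ℝ, 0 < w ∧ w ≤ e ∧ ∀ b : ℝ, 0 ≤ b → b ≤ 1 →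
      |f (w * b) / w - p⁻¹ * b| ≤ η ∧ |g (w * b) / w - q * p⁻¹ * b| ≤ η := by
  obtain ⟨δ, hδ, h1⟩ := lin_approx hp tp tq hη
  have hw : 0 < min δ e := lt_min hδ he
  refine ⟨min δ e, hw, min_le_right _ _, fun b hb hb1 => ?_⟩
  set w := min δ e with hwd
  have key : ∀ y z : ℝ, |y - z * (w * b)| ≤ η * (w * b) → |y / w - z * b| ≤ η := by
    intro y z h2
    have e1 : y / w - z * b = (y - z * (w * b)) / w := by
      field_simp
    rw [e1, abs_div, abs_of_pos hw, div_le_iff₀ hw]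
    refine h2.trans ?_
    have h3 : w * b ≤ w := mul_le_of_le_one_right hw.le hb1
    exact mul_le_mul_of_nonneg_left h3 hη.le
  rcases hb.eq_or_lt with h2 | h2
  · rw [← h2, mul_zero, hf, hg, mul_zero, mul_zero, zero_div, sub_zero, abs_zero]
    exact ⟨hη.le, hη.le⟩
  · have h3 : 0 < w * b := mul_pos hw h2
    have h4 : w * b ≤ δ := (mul_le_of_le_one_right hw.le hb1).trans (min_le_left _ _)
    obtain ⟨h5, h6⟩ := h1 (w * b) h3 h4
    exact ⟨key _ _ h5, key _ _ h6⟩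

end Pool.Agent.Helper17.FSA
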