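import Pool.Agent.Helper17.FSA.Dfc
import Pool.Agent.Helper17.FSA.Rl
import Pool.Agent.Helper71.VIS.Trx
import Pool.Agent.Helper15.FST.Zmx
import Pool.Agent.Helper62.FST.St

/-! FIRST, row [A']: at a point of positive speed the zooms with small units are linear up to a small error. -/

set_option autoImplicit false

namespace Pool.Agent.Helper17.FSA

open Finset Filter Topology Matrix Pool.Agent.Helper69.RK Pool.Agent.Helper31.EC Pool.Agent.Helper31.EC.Sp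
open Pool.Agent.Helper40.EL Pool.Agent.Helper89.LX Pool.Agent.Helper84.MT
open Pool.Agent.Helper49.MD Pool.Agent.Helper36.AM
open Pool.Agent.Helper29.MX
open Pool.Agent.Helper15.FST
open Pool.Agent.Helper62.FST (FA' ROW_A')
open Pool.Agent.Helper94.SEL (tot num BK)
open Pool.Agent.Helper89.NUM (mem_im mem_ne one_mem)

noncomputable section

variable {S T : Sp} {N M : ℕ} {E : ℕ → ℕ} {ι : Type}

theorem num_top [Finite ι] (s : MSys S N E ι) (R : Rsl S) (c : ℝ) : num s R le_rfl c = tot s R c := by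
  unfold num tot
  rw [Pool.Agent.Helper71.VIS.volP_top]

theorem bk_mono {C : MCl (M + 1)} {v g r e0 : ℕ} {b0 b1 : ℝ} (hb : b0 ≤ b1) {s : MSys S (M + 1) (lin g) (Fin r)}
    {R : Rsl S} (h : BK C v g r e0 b1 S s R) : BK C v g r e0 b0 S s R :=
  ⟨h.cl, h.dim, h.pol, h.stb, fun T q A hA c h0 hc j hj => h.rig T q A hA c h0 (hc.trans_le hb) j hj⟩

/-- **[A']** -/
theorem row_a' (hLEV : ROW_LEV) (hTRV : ROW_TRV) (hKAP : ROW_KAP) (hIMZ : ROW_IMZ) (hN3 : ROW_N3)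
    (hN4 : ROW_N4) (hCLZ : ROW_CLZ) (hZMX : ROW_ZMXP M) (hCST : ROW_CST (M + 1)) (hNUM : ROW_NUM (M + 1)) :
    ROW_A' M := by
  intro A C hM hok hst m v g r i j L u h V P hg hF c a p q hloc hp
  obtain ⟨S, s, hs⟩ := mem_ne hF
  have hL1 : (1 : ℝ) ∈ L := one_mem hF hloc.rat
  have hc0 := hloc.c0
  have hc1 : c < 1 := hloc.ca.trans_lt hloc.a1
  set e0 : ℕ := Finset.univ.sup fun i => (s.lf i).e with he0
  have he : ∀ i, (s.lf i).e ≤ e0 := fun i => Finset.le_sup (f := fun i => (s.lf i).e) (Finset.mem_univ i)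
  obtain ⟨κ, hκ, hZ⟩ := hZMX A C hM hok hst v m g r e0 i j c hg hc0
  -- the speed
  have hp1 : 1 ≤ p⁻¹ := by
    have h1 := hNUM A C hok hst m v g r i j L u h V P hg (by omega) hF hloc.rat
    have h2 : p ≤ 1 := by
      refine le_of_tendsto hloc.tp ?_
      have h3 : ∀ᶠ x in 𝓝[>] (0 : ℝ), x ∈ Set.Ioo (0 : ℝ) (1 - a) := Ioo_mem_nhdsGT (by linarith [hloc.a1])
      filter_upwards [h3] with x hx
      have h4 := h1.2.1 a hloc.aL c (c + x) (hc0.trans_le hloc.ca) hloc.a1 hc0.le hloc.ca (by linarith [hx.1])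
        (by linarith [hx.2, hloc.ca]) hloc.ua
      have h5 : min (c + x - c) (1 - a) = x := by
        rw [add_sub_cancel_left]
        exact min_eq_left hx.2.le
      rw [h5] at h4
      push_cast at h4
      have h6 : x ≤ u 1 (c + x) - u 1 c := by
        have h7 : 0 ≤ (M : ℝ) * x := mul_nonneg (Nat.cast_nonneg M) hx.1.le
        linarith
      rw [div_le_one (hx.1.trans_le h6)]
      exact h6
    exact (one_le_inv₀ hp).mpr h2
  have hw0 : 0 < p⁻¹ := by linarith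
  -- a rational level
  obtain ⟨a', ha1, ha2⟩ : ∃ a' : ℚ, a < a' ∧ (a' : ℝ) < 1 := exists_rat_btwn hloc.a1
  have hca' : c < a' := hloc.ca.trans_lt ha1
  have ha'0 : (0 : ℝ) < a' := hc0.trans hca'
  -- numbers of members
  have hu1 : ∀ (S' : Sp) (s' : MSys S' (M + 1) (lin g) (Fin r)), Mem C m v g r i j P S' s' → ∀ x : ℝ, 0 ≤ x →
      x ≤ 1 → UL s' 1 x = u 1 x := fun S' s' hs' x h0 h1 => hF.ul S' s' hs' 1 hL1 one_pos le_rfl x h0 h1
  have hh1 : ∀ (S' : Sp) (s' : MSys S' (M + 1) (lin g) (Fin r)), Mem C m v g r i j P S' s' → ∀ x : ℝ, 0 ≤ x →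
      x ≤ 1 → HL s' 1 x = h 1 x := fun S' s' hs' x h0 h1 => hF.hl S' s' hs' 1 hL1 one_pos le_rfl x h0 h1
  have hmi : ∀ (T : Sp) (p : Pj T S) (A : ∀ k, (T.F k).Ω → Prop) (hA : 0 < ul (T.pr A)),
      Mem C m v g r i j P (Sp.im p A) (s.im p A hA) := fun T p A hA => mem_im hok hF.cls hs p A hA
  have hUa : UL s 1 c ≤ UL s a' c := by
    rw [hu1 S s hs c hc0.le hc1.le, ← hloc.ua, ← hF.ul S s hs a hloc.aL (hc0.trans_le hloc.ca) hloc.a1.le c hc0.le
      hloc.ca]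
    exact (hLEV S (M + 1) g r s).2.1 a a' c (hc0.trans_le hloc.ca) ha1.le ha2.le hc0.le hloc.ca
  refine ⟨κ, e0, hκ, hp1, fun ε hε => ?_⟩
  -- the error and the unit
  set η : ℝ := min (ε / 5) (1 / 2) with hηd
  have hη : 0 < η := lt_min (by linarith) (by norm_num)
  have hη5 : 5 * η ≤ ε := by
    have := min_le_left (ε / 5) (1 / 2)
    linarith
  have hη2 : η ≤ 1 / 2 := min_le_right _ _
  obtain ⟨w, hw, hwa, happ⟩ := lin_approx' (f := fun x => u 1 (c + x) - u 1 c) (g := fun x => h 1 c - h 1 (c + x)) hp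
    (by simp only [add_zero, sub_self]) (by simp only [add_zero, sub_self]) hloc.tp hloc.tq hη
    (show (0 : ℝ) < 1 - a' by linarith)
  set b1 : ℝ := (1 - η) / p⁻¹ with hb1d
  have hb1 : ∀ b : ℝ, b < b1 ↔ p⁻¹ * b < 1 - η := fun b => by
    rw [hb1d, lt_div_iff₀ hw0, mul_comm]
  have hb10 : 0 < b1 := div_pos (by linarith) hw0
  have hb11 : b1 ≤ 1 := by
    rw [hb1d, div_le_one hw0]
    linarith
  have hcw : ∀ b : ℝ, 0 ≤ b → b ≤ 1 → 0 ≤ c + w * b ∧ c + w * b ≤ 1 := fun b h0 h1 => by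
    have h2 : 0 ≤ w * b := mul_nonneg hw.le h0
    have h3 : w * b ≤ w := mul_le_of_le_one_right hw.le h1
    constructor
    · linarith
    · linarith
  -- rigidity of the prefixes
  have hrig : ∀ (T : Sp) (p : Pj T S) (B : ∀ k, (T.F k).Ω → Prop) (hB : 0 < ul (T.pr B)) (c' : ℝ), c ≤ c' →
      c' < c + w * b1 → ∀ (j : ℕ) (hj : j ≤ M + 1),
        volP (s.im p B hB) (rbot _) c' hj = volP s (rbot S) c' hj := by
    intro T p B hB c' h2 h3 j hj
    have h4 : 0 ≤ c' := hc0.le.trans h2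
    have h5 : c' ≤ 1 := h3.le.trans (hcw b1 hb10.le hb11).2
    rw [← volP_trn1 hLEV s h4 h5 hj, hF.pf S s hs 1 hL1 one_pos le_rfl c' h4 h5 j hj]
    have h6 := volP_trn1 hLEV (s.im p B hB) h4 h5 hj
    rw [hF.pf _ _ (hmi T p B hB) 1 hL1 one_pos le_rfl c' h4 h5 j hj] at h6
    exact h6.symm
  have hsat : ∀ b : ℝ, 0 ≤ b → b < b1 → UL s 1 (c + w * b) < UL s 1 c + w := by
    intro b h2 h3
    have h4 : b ≤ 1 := h3.le.trans hb11
    rw [hu1 S s hs c hc0.le hc1.le, hu1 S s hs _ (hcw b h2 h4).1 (hcw b h2 h4).2]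
    have h5 := (abs_le.1 (happ b h2 h4).1).2
    have h6 : (u 1 (c + w * b) - u 1 c) / w < 1 := by
      have := (hb1 b).1 h3
      linarith
    rw [div_lt_one hw] at h6
    linarith
  -- the zoom
  obtain ⟨Z, hkap, hbk, hnum⟩ := hZ S s hs.1 he c a' w b1 (V a' c) le_rfl hca' hw (by linarith) hb10 hb11 hUa
    (fun h0 h1 T p B hB j hj => hF.pf _ _ (hmi T p B hB) a' (hloc.rat a' ha'0 ha2.le) h0 h1 c hc0.le hca'.le j hj)
    hrig hsat
  have hK := hKAP (M + 1) g r i j S s hs.1.2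
  -- the total exponents of the zoom and of its events
  have htot : ∀ b : ℝ, 0 ≤ b → p⁻¹ * b < 1 - η → |tot Z.t (rbot _) b - p⁻¹ * b| ≤ η := by
    intro b h2 h3
    have h4 := (hb1 b).2 h3
    have h5 : b ≤ 1 := h4.le.trans hb11
    have h6 := hnum b h2 h4 (M + 1) le_rfl
    rw [num_top, num_top, num_top] at h6
    have h7 : ∀ x : ℝ, 0 ≤ x → x ≤ 1 → tot s (rbot S) x = u 1 x := fun x h0 h1 => by
      rw [← hu1 S s hs x h0 h1]
      exact ((hLEV S (M + 1) g r s).1 x h0 h1).symm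
    rw [h6, h7 _ (hcw b h2 h5).1 (hcw b h2 h5).2, h7 c hc0.le hc1.le]
    exact (happ b h2 h5).1
  have htoti : ∀ (T : Sp) (p' : Pj T ((Lab.ofZ Z.W).ovr w Z.hu)) (A : ∀ k, (T.F k).Ω → Prop) (hA : 0 < ul (T.pr A))
      (b : ℝ), 0 ≤ b → p⁻¹ * b < 1 - η → tot (Z.t.im p' A hA) (rbot _) b = tot Z.t (rbot _) b := by
    intro T p' A hA b h2 h3
    have h6 := hbk.rig T p' A hA b h2 ((hb1 b).2 h3) (M + 1) le_rfl
    rw [← num_top, ← num_top]
    exact h6
  -- the entropy over the label of the zoom, on all events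
  have hlow : ∀ x : ℝ, 0 ≤ x → x ≤ 1 → ∀ X : Rsl S, s.IsKap x (Lab.ofZ X) → TLb s x (Lab.ofZ X) ∧
      ∀ (T : Sp) (p : Pj T S) (A : ∀ k, (T.F k).Ω → Prop) (hA : 0 < ul (T.pr A)),
        H (up1 (Lab.ofZ (S := Sp.im p A) X) ((s.im p A hA).Q.dg 1)) ≤ h 1 x := by
    intro x h0 h1 X hX
    obtain ⟨h2, h3⟩ := hK x (Lab.ofZ X) h0 h1 hX
    have h4 : H (up1 (Lab.ofZ X) (s.Q.dg 1)) ≤ h 1 x := by
      rw [← hh1 S s hs x h0 h1]
      exact h3 1 one_pos le_rfl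
    exact ⟨h2, fun T p A hA => (hCST C m v g r i j L u h V P hF S s hs 1 hL1 one_pos le_rfl x h0 h1 X h2 h4 T p A hA).2⟩
  have hWi := (hlow c hc0.le hc1.le Z.W hkap).2
  have hbb : ∀ b : ℝ, p⁻¹ * b < 1 - ε → p⁻¹ * b < 1 - η := fun b h2 => by linarith
  -- the labels
  have hlab : ∀ b : ℚ, ∃ X : Rsl S, s.IsKap (c + w * b) (Lab.ofZ X) := fun b => exists_kap_lit s (c + w * b)
  choose W hW using hlab
  refine ⟨(Lab.ofZ Z.W).ovr w Z.hu, Z.t, ⟨?_, ?_, ?_, ?_⟩⟩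
  · -- rigid stable pair
    refine bk_mono ?_ hbk
    rw [hb1d]
    exact div_le_div_of_nonneg_right (by linarith) hw0.le
  · -- total exponent
    intro b h2 h3
    exact (htot b h2 (hbb b h3)).trans (by linarith)
  · -- deficiency
    intro T p' A' hA b h2 h3
    have hbk' := Pool.Agent.Helper71.VIS.bk_im hok hbk p' A' hA
    have h4 := dfc_one (S := Sp.im p' A') (t := Z.t.im p' A' hA) hLEV hTRV hκ hst hloc.q0 hloc.q1 hp1 hη
      (fun b h2 h3 => by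
        rw [htoti T p' A' hA b h2 h3]
        exact htot b h2 h3)
      (fun T2 p2 A2 hA2 b h2 h3 => by
        have h6 := hbk'.rig T2 p2 A2 hA2 b h2 ((hb1 b).2 h3) (M + 1) le_rfl
        rw [← num_top, ← num_top]
        exact h6) ?_ h2 h3
    · linarith
    · -- informations
      obtain ⟨T1, p1, A1, hA1, Z1, heq, hW1⟩ := hIMZ S (M + 1) g r κ s c a' w (UL s 1 c) Z T p' A' hA
      refine sig_tr0 (fun X (t : MSys X (M + 1) (lin κ) (Fin r)) => ∀ b : ℝ, 0 ≤ b → b ≤ 1 → ∀ e : ℝ, 0 < e → e ≤ 1 →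
        ∀ l : Lab X, TLb t b l → H (t.Q.dg e) - H (up1 l (t.Q.dg e)) ≤ q * p⁻¹ * b + η) heq ?_
      intro b h0 h1 e h5 h6 l hl
      have h7 := inf_zoom hN3 hN4 Z1 h0 h1 hl h5 h6
      rw [hh1 _ _ (hmi T1 p1 A1 hA1) _ (hcw b h0 h1).1 (hcw b h0 h1).2] at h7
      have h8 : H (up1 (Lab.ofZ Z1.W) ((s.im p1 A1 hA1).Q.dg 1)) ≤ h 1 c := by
        have e1 : Z1.W = (Z.W : Rsl (Sp.im p1 A1)) := funext hW1
        rw [e1]
        exact hWi T1 p1 A1 hA1
      have h9 : H (Z1.t.Q.dg e) - H (up1 l (Z1.t.Q.dg e)) ≤ (h 1 c - h 1 (c + w * b)) / w := by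
        rw [le_div_iff₀ hw]
        linarith
      have h10 := (abs_le.1 (happ b h0 h1).2).2
      linarith
  · -- labels
    refine ⟨W, fun b h0 h2 => ?_⟩
    have h4 : (b : ℝ) ≤ 1 := ((hb1 b).2 (hbb b h2)).le.trans hb11
    obtain ⟨k1, k2⟩ := hlow (c + w * b) (hcw b h0.le h4).1 (hcw b h0.le h4).2 (W b) (hW b)
    refine ⟨(tlb_iff Z.t b _).mpr (tlb_zoom Z h0.le h4 k1), fun b' hbb' h3 T p' A' hA X hX hXl => ?_⟩
    have h0' : (0 : ℝ) ≤ b' := h0.le.trans hbb'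
    have h4' : b' ≤ 1 := ((hb1 b').2 (hbb b' h3)).le.trans hb11
    obtain ⟨T1, p1, A1, hA1, Z1, heq, hW1⟩ := hIMZ S (M + 1) g r κ s c a' w (UL s 1 c) Z T p' A' hA
    have key := sig_tr (α := Bool) (X := (Lab.ofZ Z1.W).ovr w Z1.hu) (Y := Sp.im p' A')
      (fun X' (t : MSys X' (M + 1) (lin κ) (Fin r)) (Y : Bool → Rsl X') =>
        TLb t b' (Lab.ofZ (Y true)) → H (up1 (Lab.ofZ (Y false)) (t.Q.dg 1)) - H (up1 (Lab.ofZ (Y true)) (t.Q.dg 1)) ≤
          q * p⁻¹ * (b' - b) + ε) (fun k => (S.F k).Ω)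
        (fun a k => match a with
          | true => X k
          | false => W b k) (fun _ => rfl) (fun _ => rfl) heq (by
      intro hl
      have h7 := inf_zoom2 hN3 hN4 hCLZ Z1 (b := b') h0' h4' (V := W b) (V' := X) (V0 := W b) hX (fun k => le_rfl) hl
      rw [hh1 _ _ (hmi T1 p1 A1 hA1) _ (hcw b' h0' h4').1 (hcw b' h0' h4').2] at h7
      have h8 := k2 T1 p1 A1 hA1
      have h9 := h7.trans (sub_le_sub_right h8 _)
      have h10 := (abs_le.1 (happ b' h0' h4').2).2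
      have h11 := (abs_le.1 (happ b h0.le h4).2).1
      have h12 : (h 1 (c + w * b) - h 1 (c + w * b')) / w ≤ q * p⁻¹ * (b' - b) + ε := by
        have e1 : (h 1 (c + w * b) - h 1 (c + w * b')) / w = (h 1 c - h 1 (c + w * b')) / w -
            (h 1 c - h 1 (c + w * b)) / w := by
          ring
        rw [e1]
        have e2 : q * p⁻¹ * (b' - b) = q * p⁻¹ * b' - q * p⁻¹ * b := by ring
        rw [e2]
        linarith
      refine le_trans ?_ h12
      rw [le_div_iff₀ hw, mul_comm]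
      exact h9)
    exact key hXl

end

end Pool.Agent.Helper17.FSA
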